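import Pool.Agent.W325.KZ.Defs

/-!
# Measurability of the events
-/

set_option autoImplicit false

open Finset MeasureTheory ProbabilityTheory Filter Topology

namespace Pool.Agent.W589.KZ.Meas

open Pool.Agent.W325.KZ

theorem proj {X Y : Type*} [TopologicalSpace X] [TopologicalSpace Y] {K : Set Y}
    (hK : IsCompact K) {P : X → Y → Prop} (hP : IsClosed {p : X × Y | P p.1 p.2}) :
    IsClosed {a | ∃ y ∈ K, P a y} := by
  have : CompactSpace K := isCompact_iff_compactSpace.mp hK
  have h1 : IsClosed {p : X × K | P p.1 p.2.1} :=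
    hP.preimage (f := fun p : X × K => (p.1, p.2.1))
      (continuous_fst.prodMk (continuous_subtype_val.comp continuous_snd))
  have h2 := isClosedMap_fst_of_compactSpace (X := X) (Y := K) _ h1
  have h3 : {a | ∃ y ∈ K, P a y} = Prod.fst '' {p : X × K | P p.1 p.2.1} := by
    ext a
    constructor
    · rintro ⟨y, hy, hP⟩
      exact ⟨(a, ⟨y, hy⟩), hP, rfl⟩
    · rintro ⟨⟨a', y⟩, hP, rfl⟩
      exact ⟨y.1, y.2, hP⟩
  rw [h3]
  exact h2

theorem cont_pol (n : ℕ) : Continuous fun p : (ℕ → ℝ) × ℝ => pol p.1 n p.2 := by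
  unfold pol
  exact continuous_finsetSum _ fun k _ =>
    ((continuous_apply k).comp continuous_fst).mul (continuous_snd.pow k)

theorem deriv_pol (a : ℕ → ℝ) (n : ℕ) (x : ℝ) :
    deriv (pol a n) x = ∑ k ∈ range n, a k * ((k : ℝ) * x ^ (k - 1)) := by
  have h : HasDerivAt (pol a n) (∑ k ∈ range n, a k * ((k : ℝ) * x ^ (k - 1))) x := by
    unfold pol
    have := HasDerivAt.fun_sum (u := range n) (A := fun k x => a k * x ^ k)
      (A' := fun k => a k * ((k : ℝ) * x ^ (k - 1))) (x := x)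
      fun k _ => (hasDerivAt_pow k x).const_mul (a k)
    exact this
  exact h.deriv

/-- at least `k` zeros in a compact set: a countable union of closed sets -/
theorem meas_Zr (n k : ℕ) {K : Set ℝ} (hK : IsCompact K) :
    MeasurableSet {a | Zr (pol a n) K k} := by
  have h : {a | Zr (pol a n) K k} = ⋃ N : ℕ, {a : ℕ → ℝ | ∃ x ∈ Set.pi Set.univ fun _ : Fin k => K,
      (∀ i, pol a n (x i) = 0) ∧ ∀ i j, i ≠ j → 1 / ((N : ℝ) + 1) ≤ |x i - x j|} := by
    ext a
    simp only [Set.mem_iUnion, Set.mem_ofPred_eq]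
    constructor
    · rintro ⟨S, hS, hz⟩
      obtain ⟨T, hTS, hT⟩ := Finset.exists_subset_card_eq hS
      set x : Fin k → ℝ := fun i => T.orderEmbOfFin hT i with hx
      have hinj : Function.Injective x := (T.orderEmbOfFin hT).injective
      have hxm : ∀ i, x i ∈ S := fun i => hTS (T.orderEmbOfFin_mem hT i)
      have hex : ∀ p : Fin k × Fin k, ∃ N : ℕ, p.1 ≠ p.2 → 1 / ((N : ℝ) + 1) ≤ |x p.1 - x p.2| := by
        intro p
        by_cases hp : p.1 = p.2
        · exact ⟨0, fun h => absurd hp h⟩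
        · have hpos : 0 < |x p.1 - x p.2| := abs_pos.mpr (sub_ne_zero.mpr fun h => hp (hinj h))
          obtain ⟨N, hN⟩ := exists_nat_one_div_lt hpos
          exact ⟨N, fun _ => hN.le⟩
      choose f hf using hex
      refine ⟨Finset.univ.sup f, x, fun i _ => (hz _ (hxm i)).1, fun i => (hz _ (hxm i)).2,
        fun i j hij => ?_⟩
      refine le_trans ?_ (hf (i, j) hij)
      have : f (i, j) ≤ Finset.univ.sup f := Finset.le_sup (Finset.mem_univ _)
      have h' : (f (i, j) : ℝ) ≤ ((Finset.univ.sup f : ℕ) : ℝ) := by exact_mod_cast this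
      exact one_div_le_one_div_of_le (by positivity) (by linarith)
    · rintro ⟨N, x, hxK, hx0, hxd⟩
      have hinj : Function.Injective x := by
        intro i j hij
        by_contra hne
        have := hxd i j hne
        rw [hij, sub_self, abs_zero] at this
        have hpos : 0 < 1 / ((N : ℝ) + 1) := by positivity
        linarith
      classical
      refine ⟨Finset.univ.image x, ?_, ?_⟩
      · rw [Finset.card_image_of_injective _ hinj]; simp
      · intro y hy
        obtain ⟨i, _, rfl⟩ := Finset.mem_image.mp hy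
        exact ⟨hxK i (Set.mem_univ _), hx0 i⟩
  rw [h]
  refine MeasurableSet.iUnion fun N => IsClosed.measurableSet ?_
  refine proj (isCompact_univ_pi fun _ => hK) (P := fun a x => (∀ i, pol a n (x i) = 0) ∧
    ∀ i j, i ≠ j → 1 / ((N : ℝ) + 1) ≤ |x i - x j|) ?_
  have hcx : ∀ i : Fin k, Continuous fun p : (ℕ → ℝ) × (Fin k → ℝ) => p.2 i :=
    fun i => (continuous_apply i).comp continuous_snd
  have h1 : IsClosed {p : (ℕ → ℝ) × (Fin k → ℝ) | ∀ i, pol p.1 n (p.2 i) = 0} := by
    simp only [Set.ofPred_forall]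
    refine isClosed_iInter fun i => ?_
    exact isClosed_eq ((cont_pol n).comp (continuous_fst.prodMk (hcx i))) continuous_const
  have h2 : IsClosed {p : (ℕ → ℝ) × (Fin k → ℝ) |
      ∀ i j, i ≠ j → 1 / ((N : ℝ) + 1) ≤ |p.2 i - p.2 j|} := by
    simp only [Set.ofPred_forall]
    refine isClosed_iInter fun i => isClosed_iInter fun j => isClosed_iInter fun _ => ?_
    exact isClosed_le continuous_const ((hcx i).sub (hcx j)).abs
  exact h1.inter h2

theorem meas : S_MEAS := by
  intro n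
  refine ⟨fun α β k => meas_Zr n k isCompact_Icc, fun k => ?_, fun s u => ?_, ?_⟩
  · have h : {a | Zr (pol a n) Set.univ k} = ⋃ N : ℕ, {a | Zr (pol a n) (Set.Icc (-(N : ℝ)) N) k} := by
      ext a
      simp only [Set.mem_iUnion, Set.mem_ofPred_eq]
      constructor
      · rintro ⟨S, hS, hz⟩
        refine ⟨⌈∑ x ∈ S, |x|⌉₊, S, hS, fun x hx => ⟨?_, (hz x hx).2⟩⟩
        have h1 : |x| ≤ ∑ x ∈ S, |x| := Finset.single_le_sum (f := fun x : ℝ => |x|)
          (fun y _ => abs_nonneg y) hx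
        have h2 := Nat.le_ceil (∑ x ∈ S, |x|)
        exact Set.mem_Icc.mpr (abs_le.mp (h1.trans h2))
      · rintro ⟨N, S, hS, hz⟩
        exact ⟨S, hS, fun x hx => ⟨Set.mem_univ _, (hz x hx).2⟩⟩
    rw [h]
    exact MeasurableSet.iUnion fun N => meas_Zr n k isCompact_Icc
  · have h : {a | Cr a n s u} = {a : ℕ → ℝ | ∃ x ∈ Set.Icc (-1 : ℝ) 1, 1 - s ≤ |x| ∧
        ∑ k ∈ range n, a k * ((k : ℝ) * x ^ (k - 1)) = 0 ∧ |pol a n x| ≤ u} := by
      ext a
      simp only [Set.mem_ofPred_eq, Cr, deriv_pol]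
      constructor
      · rintro ⟨x, h1, h2, h3, h4⟩
        exact ⟨x, Set.mem_Icc.mpr (abs_le.mp h2), h1, h3, h4⟩
      · rintro ⟨x, h2, h1, h3, h4⟩
        exact ⟨x, h1, abs_le.mpr (Set.mem_Icc.mp h2), h3, h4⟩
    rw [h]
    refine IsClosed.measurableSet ?_
    refine proj isCompact_Icc (P := fun (a : ℕ → ℝ) (x : ℝ) => 1 - s ≤ |x| ∧
        ∑ k ∈ range n, a k * ((k : ℝ) * x ^ (k - 1)) = 0 ∧ |pol a n x| ≤ u) ?_
    have h1 : IsClosed {p : (ℕ → ℝ) × ℝ | 1 - s ≤ |p.2|} :=
      isClosed_le continuous_const continuous_snd.abs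
    have h2 : IsClosed {p : (ℕ → ℝ) × ℝ | ∑ k ∈ range n, p.1 k * ((k : ℝ) * p.2 ^ (k - 1)) = 0} := by
      refine isClosed_eq (continuous_finsetSum _ fun k _ => ?_) continuous_const
      exact ((continuous_apply k).comp continuous_fst).mul
        (continuous_const.mul (continuous_snd.pow (k - 1)))
    have h3 : IsClosed {p : (ℕ → ℝ) × ℝ | |pol p.1 n p.2| ≤ u} :=
      isClosed_le (cont_pol n).abs continuous_const
    exact h1.inter (h2.inter h3)
  · exact measurable_pi_lambda _ fun k => measurable_pi_apply _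

end Pool.Agent.W589.KZ.Meas
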